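import Pool.Agent.X32.NF.NormSet
import Pool.Agent.X32.NF.Quadric
import Pool.Agent.Results.MP_a59382_lc.CubicEquations

/-!
# The pole relation is not defined by norm equations, quadrics, and rational functions on them

Let `K` be a number field and let `Q` be a rich set of rational primes, for example the primes
`p = 1 mod 4`. A set `S` of points over `K` is *linked* if any two points of `S` are values of one
rational map over `K` from an affine space, the first one at a point over `K`, the second one at a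
point over the algebraic closure, such that all values of the map at points over `K` are in `S`.

Affine spaces, quadrics `q(y) = c` (`q` a nondegenerate quadratic form in at least two variables,
`c ≠ 0`) and the sets `N₁(z₁) ⋯ N_k(z_k) = c` (`N_j` the norm of a finite extension of `K`, or the
reduced norm of a division algebra, of any degree; `c ≠ 0`) are linked.

We consider finite unions `U` of relations between `a, b ∈ K` of the following two kinds:
* `∃ z, f(a, b, z) = 0`, where `f` has degree at most three in `(a, z)` (see `CubicEquations`);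
* `a` is a value of a rational function `p/q` at a point of a product of linked sets; here the
  linked sets, `p` and `q` depend in an arbitrary way on `b`.

If for one `b` without pole above `Q` all `a` with `U(a, b)` satisfy the pole relation, then each
relation of the second kind holds for at most one `a`, the set of all `a` with `U(a, b)` is thin
and it misses infinitely many rational integers. In particular `U` is not the relation `R_K` of
the problem.
-/

set_option autoImplicit false

namespace Pool.Agent.Results.MP_a59382_lc.NormEquations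

open MvPolynomial Pool.Agent.TH766.HP Pool.Agent.TH783.CE Pool.Agent.X32.NF
open Pool.Agent.Results.MP_a59382_lc.CubicEquations (PoleRel)

/-- A block: an affine space over `K`, or a quadric `yᵀ A y = c` in `Kⁿ`, `n ≥ 2`, `A` a symmetric
invertible matrix, `c ≠ 0`, or a set `N₁(z₁) ⋯ N_k(z_k) = c` in `D₁ × ⋯ × D_k = Kⁿ`, where the
`D_j` are division algebras over `K` with norms `N_j` and `c ≠ 0`. -/
def Block {K : Type} [Field K] {n : ℕ} (S : Set (Fin n → K)) : Prop :=
  S = Set.univ ∨
  (2 ≤ n ∧ ∃ (A : Matrix (Fin n) (Fin n) K) (c : K), A.IsSymm ∧ A.det ≠ 0 ∧ c ≠ 0 ∧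
    S = {y | y ⬝ᵥ (A.mulVec y) = c}) ∨
  ∃ (k : ℕ) (D : Fin k → Type) (_ : ∀ j, DivisionRing (D j)) (_ : ∀ j, Algebra K (D j))
    (N : ∀ j, D j → K) (φ : (Fin n → K) ≃ₗ[K] (∀ j, D j)) (c : K),
    (∀ j, IsNorm K (D j) (N j)) ∧ c ≠ 0 ∧ S = {y | ∏ j, N j (φ y j) = c}

/-- The values of `p / q` at the points `x = (x₁, …, x_r)` with `x_j ∈ S_j` for all `j` and
`q(x) ≠ 0`. -/
def values {K : Type} [Field K] {r : ℕ} {n : Fin r → ℕ} (S : ∀ j, Set (Fin (n j) → K))
    (p q : MvPolynomial ((j : Fin r) × Fin (n j)) K) : Set K :=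
  {t | ∃ x : (j : Fin r) × Fin (n j) → K, (∀ j, (fun i => x ⟨j, i⟩) ∈ S j) ∧
    eval x q ≠ 0 ∧ t = eval x p / eval x q}

theorem result :
    -- affine spaces, quadrics and norm equations are linked
    (∀ (K : Type) [Field K] [CharZero K] (n : ℕ) (S : Set (Fin n → K)), Block S → Linked S) ∧
    -- for every number field the relation `R_K` is not a finite union of such relations
    (∀ (K : Type) [Field K] [NumberField K]
      (k : ℕ) (n : Fin k → ℕ) (f : ∀ i, MvPolynomial (Fin 2 ⊕ Fin (n i)) K),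
      (∀ i, ∀ m ∈ (f i).support, m (Sum.inl 0) + ∑ j, m (Sum.inr j) ≤ 3) →
      ∀ (l : ℕ) (r : Fin l → ℕ) (d : ∀ i, Fin (r i) → ℕ)
        (S : ∀ i, K → ∀ j, Set (Fin (d i j) → K))
        (p q : ∀ i, K → MvPolynomial ((j : Fin (r i)) × Fin (d i j)) K),
      (∃ b ∈ NoPole K {p | p % 4 = 1}, ∀ i j, Linked (S i b j)) →
      ¬ ∀ a b : K, ((∃ i, ∃ z : Fin (n i) → K, eval (Sum.elim ![a, b] z) (f i) = 0) ∨
          ∃ i, a ∈ values (S i b) (p i b) (q i b)) ↔ PoleRel K {p | p % 4 = 1} a b) ∧
    -- the general form, for every rich set of primes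
    (∀ (K : Type) [Field K] [NumberField K] (Q : Set ℕ), Rich Q →
      ∀ (k : ℕ) (n : Fin k → ℕ) (f : ∀ i, MvPolynomial (Fin 2 ⊕ Fin (n i)) K),
      (∀ i, ∀ m ∈ (f i).support, m (Sum.inl 0) + ∑ j, m (Sum.inr j) ≤ 3) →
      ∀ (l : ℕ) (r : Fin l → ℕ) (d : ∀ i, Fin (r i) → ℕ)
        (S : ∀ i, K → ∀ j, Set (Fin (d i j) → K))
        (p q : ∀ i, K → MvPolynomial ((j : Fin (r i)) × Fin (d i j)) K),
      ∀ b ∈ NoPole K Q, (∀ i j, Linked (S i b j)) →
      (∀ a : K, ((∃ i, ∃ z : Fin (n i) → K, eval (Sum.elim ![a, b] z) (f i) = 0) ∨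
          ∃ i, a ∈ values (S i b) (p i b) (q i b)) → PoleRel K Q a b) →
      (∀ i, (values (S i b) (p i b) (q i b)).Subsingleton) ∧
      Thin {a : K | (∃ i, ∃ z : Fin (n i) → K, eval (Sum.elim ![a, b] z) (f i) = 0) ∨
          ∃ i, a ∈ values (S i b) (p i b) (q i b)} ∧
      ∀ B : ℤ, ∃ m : ℤ, B < m ∧ PoleRel K Q (m : K) b ∧
        ¬ ((∃ i, ∃ z : Fin (n i) → K, eval (Sum.elim ![(m : K), b] z) (f i) = 0) ∨
          ∃ i, (m : K) ∈ values (S i b) (p i b) (q i b))) := by
  have main : ∀ (K : Type) [Field K] [NumberField K] (Q : Set ℕ), Rich Q →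
      ∀ (k : ℕ) (n : Fin k → ℕ) (f : ∀ i, MvPolynomial (Fin 2 ⊕ Fin (n i)) K),
      (∀ i, ∀ m ∈ (f i).support, m (Sum.inl 0) + ∑ j, m (Sum.inr j) ≤ 3) →
      ∀ (l : ℕ) (r : Fin l → ℕ) (d : ∀ i, Fin (r i) → ℕ)
        (S : ∀ i, K → ∀ j, Set (Fin (d i j) → K))
        (p q : ∀ i, K → MvPolynomial ((j : Fin (r i)) × Fin (d i j)) K),
      ∀ b ∈ NoPole K Q, (∀ i j, Linked (S i b j)) →
      (∀ a : K, ((∃ i, ∃ z : Fin (n i) → K, eval (Sum.elim ![a, b] z) (f i) = 0) ∨
          ∃ i, a ∈ values (S i b) (p i b) (q i b)) → PoleRel K Q a b) →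
      (∀ i, (values (S i b) (p i b) (q i b)).Subsingleton) ∧
      Thin {a : K | (∃ i, ∃ z : Fin (n i) → K, eval (Sum.elim ![a, b] z) (f i) = 0) ∨
          ∃ i, a ∈ values (S i b) (p i b) (q i b)} ∧
      ∀ B : ℤ, ∃ m : ℤ, B < m ∧ PoleRel K Q (m : K) b ∧
        ¬ ((∃ i, ∃ z : Fin (n i) → K, eval (Sum.elim ![(m : K), b] z) (f i) = 0) ∨
          ∃ i, (m : K) ∈ values (S i b) (p i b) (q i b)) := by
    intro K _ _ Q hQ k n f hf l r d S p q b hb hS h
    have hno : ∀ a : K, PoleRel K Q a b → a ∈ NoPole K Q := by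
      intro a ha v hv
      by_contra hcon
      exact absurd (ha v hv (not_le.1 hcon)) (not_lt.2 (hb v hv))
    have hsub : ∀ i, (values (S i b) (p i b) (q i b)).Subsingleton := by
      intro i
      have h1 := linked_const (flat_noPole (K := K) hQ) (linked_pi (S i b) (hS i)) (p i b) (q i b)
        (fun y hy hq => hno _ (h _ (Or.inr ⟨i, y, hy, by simpa [aeval_eq_eval] using hq,
          by simp [aeval_eq_eval]⟩)))
      rintro t ⟨x, hx, hqx, rfl⟩ t' ⟨x', hx', hqx', rfl⟩
      have h2 := h1 x hx x' hx' (by simpa [aeval_eq_eval] using hqx)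
      rw [div_eq_div_iff hqx hqx']
      have h3 : eval x' (p i b) * eval x (q i b) = eval x (p i b) * eval x' (q i b) := by
        simpa [aeval_eq_eval] using h2
      rw [← h3]
    have hthin : Thin {a : K | (∃ i, ∃ z : Fin (n i) → K, eval (Sum.elim ![a, b] z) (f i) = 0) ∨
        ∃ i, a ∈ values (S i b) (p i b) (q i b)} := by
      have h1 := thin_union (flat_noPole (K := K) hQ) b f hf
        (fun a ha => hno a (h a (Or.inl ha)))
      have h2 : Thin (⋃ i, values (S i b) (p i b) (q i b)) :=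
        Thin.of_finite (Set.finite_iUnion fun i => (hsub i).finite)
      refine (h1.union h2).mono ?_
      rintro a (ha | ⟨i, ha⟩)
      · exact Or.inl ha
      · exact Or.inr (Set.mem_iUnion.2 ⟨i, ha⟩)
    refine ⟨hsub, hthin, fun B => ?_⟩
    obtain ⟨m, hm, hm'⟩ := hthin.exists_int B
    refine ⟨m, hm, fun v _ hv' => ?_, hm'⟩
    exfalso
    have h1 : v.valuation K ((m : NumberField.RingOfIntegers K) : K) ≤ 1 :=
      v.valuation_le_one (K := K) (m : NumberField.RingOfIntegers K)
    have h2 : ((m : NumberField.RingOfIntegers K) : K) = (m : K) := by simp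
    rw [h2] at h1
    exact absurd hv' (not_lt.2 h1)
  refine ⟨?_, fun K _ _ k n f hf l r d S p q ⟨b, hb, hS⟩ hiff => ?_, main⟩
  · intro K _ _ n S hS
    rcases hS with rfl | ⟨hn, A, c, hA, hdet, hc, rfl⟩ | ⟨k, D, _, _, N, φ, c, hN, hc, rfl⟩
    · exact linked_univ
    · exact linked_quadric A hA hdet (by rw [Fintype.card_fin]; exact hn) c hc
    · exact linked_norm D N φ c hN hc
  · obtain ⟨-, -, h1⟩ := main K {p | p % 4 = 1} four k n f hf l r d S p q b hb hS
      fun a ha => (hiff a b).1 ha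
    obtain ⟨m, -, hm1, hm2⟩ := h1 0
    exact hm2 ((hiff m b).2 hm1)

end Pool.Agent.Results.MP_a59382_lc.NormEquations
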