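import Pool.Agent.X95T.LA7
import Pool.Agent.Results.MP_a59382_lc.CubicEquations

/-!
# The pole relation is not defined by cubic hypersurfaces and weighted quartics

Let `K` be a number field and let `Q` be a rich set of rational primes, for example the primes
`p = 1 mod 4`. A *basic set* is a set of points with coordinates in `K` of one of the following
kinds:
* an affine space;
* a cubic hypersurface `f(y) = 0`, `f` of degree at most three (singularities are allowed), such
  that at some nonsingular point with coordinates in `K` there is a plane in the tangent hyperplane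
  on which `f` is `H + C`, with coprime binary forms `H` of degree two and `C` of degree three (for
  a smooth cubic surface: a point outside of the lines);
* the points with `f(y) ≠ 0` of a weighted quartic `∑_{i ∈ I} a_i y_i² = f(y)`, where `I` has at
  least two elements, all `a_i` are different from zero and `f` is an arbitrary polynomial of degree
  at most four in the other variables (affine quadrics, generalized Châtelet surfaces);
* the points with `w ≠ 0` of a double cover `w² = f(z₁, …, z_n)`, where `n ≥ 2` and `f` is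
  a polynomial of degree at most four such that the quartic hypersurface defined by it in `ℙⁿ` is
  smooth (see `QuarticDoubleCovers`).
A *block* is a set `T` with a rational map from a product of basic sets to it, whose values are in
`T` and are Zariski dense in `T` (for example the set of all points with coordinates in `K` of a
unirational affine variety).

We consider finite unions `U` of relations between `a, b ∈ K` of the following two kinds:
* `∃ z, f(a, b, z) = 0`, where `f` has degree at most three in `(a, z)` (see `CubicEquations`);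
* `a` is a value of a rational function `p/q` at a point of a product of blocks; here the blocks, `p`
  and `q` depend in an arbitrary way on `b`.

If for one `b` without pole above `Q`, for which all the sets in question are blocks, all `a` with
`U(a, b)` satisfy the pole relation (that is, have no pole above `Q`), then each relation of the
second kind holds only for finitely many `a`, the set of all `a` with `U(a, b)` is thin and it
misses infinitely many rational integers. In particular `U` is not the relation `R_K` of the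
problem.

The proof for the weighted quartics. Let `P = (w₀, z₀)` be a point of `V : ∑ a_i w_i² = f(z)` with
`f(z₀) ≠ 0`. For a direction `v` in the space of the `z`, and for `w₁`, `w₂` such that the curve
`z = z₀ + t v`, `w = w₀ + t w₁ + t² w₂` meets `V` at `t = 0` with multiplicity at least three, the
equation of `V` has degree at most four in `t` on this curve, and the remaining point of
intersection is rational. This gives a rational map of an affine space to `V`, and it is dominant
(here one uses that `I` has at least two elements). So `V` is unirational over `K` as soon as it has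
a point with `f ≠ 0`, also if `V` is very singular, and a rational function on `V` with values in a
flat set is constant.

The proof for the cubic hypersurfaces. The section of the cubic `X` with the tangent hyperplane at a
good point `P` is a rational variety, so a rational function with values in a flat set is constant
on it. Almost all its points `P'` are good. Let `h` be a polynomial which vanishes on the tangent
section at `P` and on those at its good points `P'`. Suppose that `f` does not divide `h`, eliminate
a variable, `A f + B h = r ≠ 0`, and write `r = φ ^ k r'`, where `φ` is the equation of the tangent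
section at `P` and `φ` does not divide `r'`. The equation `φ'` of the tangent section at `P'` divides
`r` and vanishes at `P'`, so for almost all `P'` it divides `φ`, and `φ` is singular at `P'`, a
contradiction. So `f` divides `h`.
-/

set_option autoImplicit false

namespace Pool.Agent.Results.MP_a59382_lc.WeightedQuartics

open MvPolynomial Pool.Agent.TH766.HP Pool.Agent.TH783.CE
open Pool.Agent.Results.MP_a59382_lc.CubicEquations (PoleRel)

/-- The polynomial `f` has a good plane section: there are a point `P` at which not all partial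
derivatives of `f` vanish and vectors `v`, `w` such that `f(P + s v + t w) = H(s, t) + C(s, t)` for
binary forms `H = h₂ s² + h₁ s t + h₀ t²` and `C = c₃ s³ + c₂ s² t + c₁ s t² + c₀ t³` over `K` with
`h₂ ≠ 0` (which can be achieved by the choice of `v` and `w` if `H ≠ 0`) and without common factor,
that is, `H(X, 1)` and `C(X, 1)` are coprime. -/
def GoodSection {K : Type} [Field K] {n : ℕ} (f : MvPolynomial (Fin (n + 1)) K) : Prop :=
  ∃ (P v w : Fin (n + 1) → K) (h2 h1 h0 c3 c2 c1 c0 : K),
    (∃ i, eval P (pderiv i f) ≠ 0) ∧ h2 ≠ 0 ∧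
    IsCoprime (Polynomial.C h2 * Polynomial.X ^ 2 + Polynomial.C h1 * Polynomial.X +
      Polynomial.C h0) (Polynomial.C c3 * Polynomial.X ^ 3 + Polynomial.C c2 * Polynomial.X ^ 2 +
      Polynomial.C c1 * Polynomial.X + Polynomial.C c0) ∧
    ∀ s t : K, eval (fun i => P i + s * v i + t * w i) f =
      (h2 * s ^ 2 + h1 * s * t + h0 * t ^ 2) +
      (c3 * s ^ 3 + c2 * s ^ 2 * t + c1 * s * t ^ 2 + c0 * t ^ 3)

/-- A basic set of points with coordinates in `K`:
* an affine space;
* the set of the points `y = (w, z₁, …, z_n)` with `w ≠ 0` of a double cover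
  `w² = F(1, z₁, …, z_n)`, where `n ≥ 2` and `F` is a form of degree four over `K` such that the
  hypersurface `F = 0` in `ℙⁿ` is smooth; the vector `(1, z₁, …, z_n)` is `Function.update y 0 1`;
* the set of the points `y` with `f(y) ≠ 0` of a weighted quartic `∑_{i ∈ I} a_i y_i² = f(y)`, where
  `I` has at least two elements, `a_i ≠ 0` for `i ∈ I` and `f` has degree at most four and does not
  involve the variables with index in `I`;
* the set of all points `y` of a hypersurface `f(y) = 0`, where `f` has degree at most three and a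
  good plane section. -/
def Basic {K : Type} [Field K] {n : ℕ} (S : Set (Fin (n + 1) → K)) : Prop :=
  S = Set.univ ∨
  (2 ≤ n ∧ ∃ F : MvPolynomial (Fin (n + 1)) K, F.IsHomogeneous 4 ∧
    (∀ y : Fin (n + 1) → AlgebraicClosure K, (∀ i, aeval y (pderiv i F) = 0) → y = 0) ∧
    S = {y | y 0 ^ 2 = eval (Function.update y 0 1) F ∧ y 0 ≠ 0}) ∨
  (∃ (I : Finset (Fin (n + 1))) (a : Fin (n + 1) → K) (f : MvPolynomial (Fin (n + 1)) K),
    2 ≤ I.card ∧ (∀ i ∈ I, a i ≠ 0) ∧ f.totalDegree ≤ 4 ∧ (∀ i ∈ I, i ∉ f.vars) ∧
    S = {y | ∑ i ∈ I, a i * y i ^ 2 = eval y f ∧ eval y f ≠ 0}) ∨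
  ∃ f : MvPolynomial (Fin (n + 1)) K, f.totalDegree ≤ 3 ∧ GoodSection f ∧ S = {y | eval y f = 0}

/-- A block: a set `T` for which there are basic sets `S₁, …, S_r` and polynomials `F_i` and `D` such
that the points `(F_i(x) / D(x))_i`, for `x = (x₁, …, x_r)` with `x_j ∈ S_j` for all `j` and
`D(x) ≠ 0`, are in `T` and every polynomial which vanishes at all these points vanishes on `T`. -/
def Block {K : Type} [Field K] {m : ℕ} (T : Set (Fin (m + 1) → K)) : Prop :=
  ∃ (r : ℕ) (n : Fin r → ℕ) (S : ∀ j, Set (Fin (n j + 1) → K))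
    (F : Fin (m + 1) → MvPolynomial ((j : Fin r) × Fin (n j + 1)) K)
    (D : MvPolynomial ((j : Fin r) × Fin (n j + 1)) K), (∀ j, Basic (S j)) ∧
    (∀ x : (j : Fin r) × Fin (n j + 1) → K, (∀ j, (fun i => x ⟨j, i⟩) ∈ S j) →
      eval x D ≠ 0 → (fun i => eval x (F i) / eval x D) ∈ T) ∧
    ∀ g : MvPolynomial (Fin (m + 1)) K,
      (∀ x : (j : Fin r) × Fin (n j + 1) → K, (∀ j, (fun i => x ⟨j, i⟩) ∈ S j) →
        eval x D ≠ 0 → eval (fun i => eval x (F i) / eval x D) g = 0) →
      ∀ y ∈ T, eval y g = 0

/-- The values of `p / q` at the points `x = (x₁, …, x_r)` with `x_j ∈ S_j` for all `j` and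
`q(x) ≠ 0`. -/
def values {K : Type} [Field K] {r : ℕ} {n : Fin r → ℕ} (S : ∀ j, Set (Fin (n j + 1) → K))
    (p q : MvPolynomial ((j : Fin r) × Fin (n j + 1)) K) : Set K :=
  {t | ∃ x : (j : Fin r) × Fin (n j + 1) → K, (∀ j, (fun i => x ⟨j, i⟩) ∈ S j) ∧
    eval x q ≠ 0 ∧ t = eval x p / eval x q}

theorem result :
    -- for every number field the relation `R_K` is not a finite union of such relations
    (∀ (K : Type) [Field K] [NumberField K]
      (k : ℕ) (n : Fin k → ℕ) (f : ∀ i, MvPolynomial (Fin 2 ⊕ Fin (n i)) K),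
      (∀ i, ∀ m ∈ (f i).support, m (Sum.inl 0) + ∑ j, m (Sum.inr j) ≤ 3) →
      ∀ (l : ℕ) (r : Fin l → ℕ) (d : ∀ i, Fin (r i) → ℕ)
        (S : ∀ i, K → ∀ j, Set (Fin (d i j + 1) → K))
        (p q : ∀ i, K → MvPolynomial ((j : Fin (r i)) × Fin (d i j + 1)) K),
      (∃ b ∈ NoPole K {p | p % 4 = 1}, ∀ i j, Block (S i b j)) →
      ¬ ∀ a b : K, ((∃ i, ∃ z : Fin (n i) → K, eval (Sum.elim ![a, b] z) (f i) = 0) ∨
          ∃ i, a ∈ values (S i b) (p i b) (q i b)) ↔ PoleRel K {p | p % 4 = 1} a b) ∧
    -- the general form, for every rich set of primes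
    (∀ (K : Type) [Field K] [NumberField K] (Q : Set ℕ), Rich Q →
      ∀ (k : ℕ) (n : Fin k → ℕ) (f : ∀ i, MvPolynomial (Fin 2 ⊕ Fin (n i)) K),
      (∀ i, ∀ m ∈ (f i).support, m (Sum.inl 0) + ∑ j, m (Sum.inr j) ≤ 3) →
      ∀ (l : ℕ) (r : Fin l → ℕ) (d : ∀ i, Fin (r i) → ℕ)
        (S : ∀ i, K → ∀ j, Set (Fin (d i j + 1) → K))
        (p q : ∀ i, K → MvPolynomial ((j : Fin (r i)) × Fin (d i j + 1)) K),
      ∀ b ∈ NoPole K Q, (∀ i j, Block (S i b j)) →
      (∀ a : K, ((∃ i, ∃ z : Fin (n i) → K, eval (Sum.elim ![a, b] z) (f i) = 0) ∨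
          ∃ i, a ∈ values (S i b) (p i b) (q i b)) → PoleRel K Q a b) →
      (∀ i, (values (S i b) (p i b) (q i b)).Finite) ∧
      Thin {a : K | (∃ i, ∃ z : Fin (n i) → K, eval (Sum.elim ![a, b] z) (f i) = 0) ∨
          ∃ i, a ∈ values (S i b) (p i b) (q i b)} ∧
      ∀ B : ℤ, ∃ m : ℤ, B < m ∧ PoleRel K Q (m : K) b ∧
        ¬ ((∃ i, ∃ z : Fin (n i) → K, eval (Sum.elim ![(m : K), b] z) (f i) = 0) ∨
          ∃ i, (m : K) ∈ values (S i b) (p i b) (q i b))) := by
  have main : ∀ (K : Type) [Field K] [NumberField K] (Q : Set ℕ), Rich Q →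
      ∀ (k : ℕ) (n : Fin k → ℕ) (f : ∀ i, MvPolynomial (Fin 2 ⊕ Fin (n i)) K),
      (∀ i, ∀ m ∈ (f i).support, m (Sum.inl 0) + ∑ j, m (Sum.inr j) ≤ 3) →
      ∀ (l : ℕ) (r : Fin l → ℕ) (d : ∀ i, Fin (r i) → ℕ)
        (S : ∀ i, K → ∀ j, Set (Fin (d i j + 1) → K))
        (p q : ∀ i, K → MvPolynomial ((j : Fin (r i)) × Fin (d i j + 1)) K),
      ∀ b ∈ NoPole K Q, (∀ i j, Block (S i b j)) →
      (∀ a : K, ((∃ i, ∃ z : Fin (n i) → K, eval (Sum.elim ![a, b] z) (f i) = 0) ∨
          ∃ i, a ∈ values (S i b) (p i b) (q i b)) → PoleRel K Q a b) →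
      (∀ i, (values (S i b) (p i b) (q i b)).Finite) ∧
      Thin {a : K | (∃ i, ∃ z : Fin (n i) → K, eval (Sum.elim ![a, b] z) (f i) = 0) ∨
          ∃ i, a ∈ values (S i b) (p i b) (q i b)} ∧
      ∀ B : ℤ, ∃ m : ℤ, B < m ∧ PoleRel K Q (m : K) b ∧
        ¬ ((∃ i, ∃ z : Fin (n i) → K, eval (Sum.elim ![(m : K), b] z) (f i) = 0) ∨
          ∃ i, (m : K) ∈ values (S i b) (p i b) (q i b)) := by
    intro K _ _ Q hQ k n f hf l r d S p q b hb hS h
    obtain ⟨φ⟩ : Nonempty (K →+* ℂ) := inferInstance
    have hno : ∀ a : K, PoleRel K Q a b → a ∈ NoPole K Q := by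
      intro a ha v hv
      by_contra hcon
      exact absurd (ha v hv (not_le.1 hcon)) (not_lt.2 (hb v hv))
    have hfin : ∀ i, (values (S i b) (p i b) (q i b)).Finite := fun i =>
      Pool.Agent.X95T.CH.fin_vals (flat_noPole (K := K) hQ) φ (hS i) _ _
        fun t ht => hno t (h t (Or.inr ⟨i, ht⟩))
    have hthin : Thin {a : K | (∃ i, ∃ z : Fin (n i) → K, eval (Sum.elim ![a, b] z) (f i) = 0) ∨
        ∃ i, a ∈ values (S i b) (p i b) (q i b)} := by
      have h1 := thin_union (flat_noPole (K := K) hQ) b f hf
        (fun a ha => hno a (h a (Or.inl ha)))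
      have h2 : Thin (⋃ i, values (S i b) (p i b) (q i b)) :=
        Thin.of_finite (Set.finite_iUnion hfin)
      refine (h1.union h2).mono ?_
      rintro a (ha | ⟨i, ha⟩)
      · exact Or.inl ha
      · exact Or.inr (Set.mem_iUnion.2 ⟨i, ha⟩)
    refine ⟨hfin, hthin, fun B => ?_⟩
    obtain ⟨m, hm, hm'⟩ := hthin.exists_int B
    refine ⟨m, hm, fun v _ hv' => ?_, hm'⟩
    exfalso
    have h1 : v.valuation K ((m : NumberField.RingOfIntegers K) : K) ≤ 1 :=
      v.valuation_le_one (K := K) (m : NumberField.RingOfIntegers K)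
    have h2 : ((m : NumberField.RingOfIntegers K) : K) = (m : K) := by simp
    rw [h2] at h1
    exact absurd hv' (not_lt.2 h1)
  refine ⟨fun K _ _ k n f hf l r d S p q ⟨b, hb, hS⟩ hiff => ?_, main⟩
  obtain ⟨-, -, h1⟩ := main K {p | p % 4 = 1} four k n f hf l r d S p q b hb hS
    fun a ha => (hiff a b).1 ha
  obtain ⟨m, -, hm1, hm2⟩ := h1 0
  exact hm2 ((hiff m b).2 hm1)

end Pool.Agent.Results.MP_a59382_lc.WeightedQuartics
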